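import Mathlib
import Pool.Agent.Lib52.Jos9

set_option autoImplicit false

/-!
# MP_f086f4_an: the phase-lock area `L_r` lies strictly to the right of the axis `B = (r - 1) ω`

The problem in its own terms: the rotation number is taken along `τ = 2 π k` for the solutions of
the equation on the torus.
-/

namespace Pool.Agent.Results.MP_f086f4_an.RightOfAxis

open Filter Topology

/-- The real-valued solutions of `dφ/dτ = l - ω⁻¹ sin φ + 2 μ cos τ`, `l = B / ω`,
`μ = A / (2 ω)`. -/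
def IsSolution (ω B A : ℝ) (φ : ℝ → ℝ) : Prop :=
  ∀ τ : ℝ, HasDerivAt φ (B / ω - ω⁻¹ * Real.sin (φ τ) + 2 * (A / (2 * ω)) * Real.cos τ) τ

/-- The solution `φ` has the rotation number `ρ`. -/
def HasRotation (φ : ℝ → ℝ) (ρ : ℝ) : Prop :=
  Tendsto (fun k : ℕ => φ (2 * Real.pi * k) / (2 * Real.pi * k)) atTop (𝓝 ρ)

/-- The set `L_r` of the points `(B, A)` at which some solution has the rotation number `r`. -/
def L (ω : ℝ) (r : ℤ) : Set (ℝ × ℝ) :=
  {p | ∃ φ : ℝ → ℝ, IsSolution ω p.1 p.2 φ ∧ HasRotation φ r}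

/-- For every `ω > 0` and every integer `r ≥ 1` the set `L_r` lies strictly to the right of the
axis `B = (r - 1) ω`. -/
theorem result : ∀ ω : ℝ, 0 < ω → ∀ r : ℤ, 1 ≤ r → ∀ B A : ℝ, (B, A) ∈ L ω r →
    (r - 1) * ω < B := by
  rintro ω hω r hr B A ⟨φ, hφ, hlim⟩
  by_contra hcon
  push Not at hcon
  obtain ⟨m, rfl⟩ : ∃ m : ℕ, r = m + 1 := ⟨(r - 1).toNat, by omega⟩
  have hB : B ≤ (m : ℝ) * ω := by
    have h1 : (((m + 1 : ℤ) : ℤ) : ℝ) - 1 = (m : ℝ) := by push_cast; ring
    rwa [h1] at hcon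
  have hd : ∀ τ, HasDerivAt φ ((-Real.sin (φ τ) + B + A * Real.cos τ) * (1 / ω)) τ := by
    intro τ
    refine (hφ τ).congr_deriv ?_
    show B / ω - ω⁻¹ * Real.sin (φ τ) + 2 * (A / (2 * ω)) * Real.cos τ = _
    field_simp
    ring
  obtain ⟨D, hD⟩ := Pool.Agent.Lib52.Josephson.growth hω m hB hd
  -- the derivative is bounded
  set M : ℝ := (1 + |B| + |A|) * (1 / ω) with hM
  have hbd : ∀ τ, ‖(-Real.sin (φ τ) + B + A * Real.cos τ) * (1 / ω)‖ ≤ M := by
    intro τ
    rw [norm_mul, Real.norm_of_nonneg (by positivity : (0 : ℝ) ≤ 1 / ω), hM]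
    refine mul_le_mul_of_nonneg_right ?_ (by positivity)
    rw [Real.norm_eq_abs]
    have h1 : |A * Real.cos τ| ≤ |A| := by
      rw [abs_mul]
      exact mul_le_of_le_one_right (abs_nonneg _) (Real.abs_cos_le_one τ)
    have h2 := Real.abs_sin_le_one (φ τ)
    calc |-Real.sin (φ τ) + B + A * Real.cos τ| ≤ |-Real.sin (φ τ) + B| + |A * Real.cos τ| :=
          abs_add_le _ _
      _ ≤ |-Real.sin (φ τ)| + |B| + |A| := add_le_add (abs_add_le _ _) h1
      _ ≤ 1 + |B| + |A| := by rw [abs_neg]; linarith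
  have hstep : ∀ n : ℕ, φ (2 * Real.pi * n) ≤ φ (-Real.pi + 2 * Real.pi * n) + M * Real.pi := by
    intro n
    have h1 := Convex.norm_image_sub_le_of_norm_hasDerivWithin_le
      (f := φ) (s := Set.univ) (x := -Real.pi + 2 * Real.pi * n) (y := 2 * Real.pi * n)
      (fun τ _ => (hd τ).hasDerivWithinAt) (fun τ _ => hbd τ) convex_univ (Set.mem_univ _)
      (Set.mem_univ _)
    have h2 : (2 * Real.pi * n - (-Real.pi + 2 * Real.pi * n)) = Real.pi := by ring
    rw [h2, Real.norm_of_nonneg Real.pi_pos.le, Real.norm_eq_abs] at h1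
    have h3 := le_abs_self (φ (2 * Real.pi * n) - φ (-Real.pi + 2 * Real.pi * n))
    linarith
  have hτlim : Tendsto (fun n : ℕ => 2 * Real.pi * (n : ℝ)) atTop atTop := by
    apply Tendsto.const_mul_atTop (by have := Real.pi_pos; positivity)
    exact tendsto_natCast_atTop_atTop
  have hR : Tendsto (fun n : ℕ => (D + M * Real.pi) / (2 * Real.pi * (n : ℝ)) + m)
      atTop (𝓝 (0 + m)) := by
    apply Tendsto.add _ tendsto_const_nhds
    exact Tendsto.div_atTop tendsto_const_nhds hτlim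
  have hle := le_of_tendsto_of_tendsto hlim hR (by
    filter_upwards [hτlim.eventually_gt_atTop 0] with n hn
    rw [div_le_iff₀ hn, add_mul, div_mul_cancel₀ _ hn.ne']
    have h1 := hD n
    have h2 := hstep n
    linarith)
  push_cast at hle
  linarith

end Pool.Agent.Results.MP_f086f4_an.RightOfAxis
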